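import Pool.Agent.H63.PU.Targets

/-!
# CHK: a checked certificate proves all its configurations
-/

namespace Pool.Agent.H77.PU.CHK

open Pool.Agent.H63.PU Pool.Agent.H53.PK

lemma refs_mem (W : Wts) (c : Cert) (i : ℕ) : ∀ (l : List (List Item)) (rs : List Ref),
    checkRefs W c i l rs = true → ∀ A ∈ l, ∃ r, checkRef W c i A r = true
  | [], _, _, A, hA => by simp at hA
  | a :: l, [], h, _, _ => by simp [checkRefs] at h
  | a :: l, r :: rs, h, A, hA => by
    simp only [checkRefs, Bool.and_eq_true] at h
    rcases List.mem_cons.mp hA with rfl | hA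
    · exact ⟨r, h.1⟩
    · exact refs_mem W c i l rs h.2 A hA

theorem chk (hRUN : T_RUN) (hINIT : T_INIT) (hPHIM : T_PHIM) (hTOPB : T_TOPB) (hQHI : T_QHI)
    (hQLO : T_QLO) (hEMB : T_EMB) (hCONTRA : T_CONTRA) (hCYC : T_CYC) : T_CHK := by
  intro W c N hW hc i
  induction i using Nat.strong_induction_on with
  | _ i ih =>
    intro hi n a hn ha hcard hR
    have h := hc i hi
    unfold checkOne at h
    generalize hpf : (c i).2 = pf at h
    cases pf with
    | leaf ks =>
      cases ks with
      | nil => simp [checkPf] at h
      | cons k ks =>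
        simp only [checkPf, Nat.ble_eq] at h
        obtain ⟨val, R, hRi, hw⟩ := hR
        obtain ⟨b, hb1, hb2⟩ := hRUN W n val (k :: ks) R hW hn hw.val1
          (by rw [hw.flat]; exact ha) hw.item
        rw [hw.flat] at hb1
        rw [hRi] at hb2
        have h3 := hPHIM W n (Edge n a) (EdgeR n R) hW (hINIT n a val R ha hw)
        have h4 : (W.M : ℤ) * ((k :: ks).length : ℤ) ≤ (run W (k :: ks) (c i).1 0 : ℤ) := by
          rw [List.length_cons]
          exact_mod_cast h
        have h5 : (0 : ℤ) < (W.M : ℤ) * ((k :: ks).length : ℤ) := by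
          have := hW.M1
          rw [List.length_cons]
          positivity
        exact ⟨(k :: ks).length, b, hb1, by linarith, by linarith⟩
    | inner q rs =>
      simp only [checkPf] at h
      have hA : ∃ l, answers q (c i).1 = some l ∧ checkRefs W c i l rs = true := by
        split at h
        · rename_i l hl
          exact ⟨l, hl, h⟩
        · simp at h
      obtain ⟨l, hl, hrefs⟩ := hA
      have hex : ∃ A ∈ l, Real n a A := by
        cases q with
        | hi j => exact hQHI n a j _ l hn ha hR hl
        | lo j => exact hQLO n a j _ l hn ha hR hl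
        | top j => exact hTOPB n a j _ l hn ha hR (Or.inl hl)
        | bot j => exact hTOPB n a j _ l hn ha hR (Or.inr hl)
      obtain ⟨A, hAl, hAR⟩ := hex
      obtain ⟨r, hr⟩ := refs_mem W c i l rs hrefs A hAl
      cases r with
      | contra => exact (hCONTRA W n a A hn ha hr hAR).elim
      | cyc S =>
        simp only [checkRef, Bool.and_eq_true, Nat.ble_eq] at hr
        have := hCYC n a S A hn ha hr.2 hAR
        omega
      | ref j m sk =>
        simp only [checkRef, Bool.and_eq_true, Nat.ble_eq] at hr
        exact ih j (by omega) (by omega) n a hn ha hcard (hEMB n a m sk _ A hr.2 hAR)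

end Pool.Agent.H77.PU.CHK
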