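import Pool.Agent.H63.PU.Targets

/-!
# FIN: a stack with at most one missing edge is sorted by at most four flips
-/

namespace Pool.Agent.H77.PU.FIN

open Pool.Agent.H63.PU Pool.Agent.H53.PK

lemma chain_eq (n : ℕ) : ∀ (l l' : List ℕ), l.IsChain (fun a b => b = nx n a) →
    l'.IsChain (fun a b => b = nx n a) → l.head? = l'.head? → l.length = l'.length → l = l'
  | [], l', _, _, _, hl => by
    simp only [List.length_nil] at hl
    exact (List.length_eq_zero_iff.mp hl.symm).symm
  | a :: t, [], _, _, _, hl => by simp at hl
  | a :: t, a' :: t', h, h', hh, hl => by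
    simp only [List.head?_cons, Option.some.injEq] at hh
    subst hh
    have hlt : t.length = t'.length := by simpa using hl
    have hhead : t.head? = t'.head? := by
      cases t with
      | nil =>
        cases t' with
        | nil => rfl
        | cons b' s' => simp at hlt
      | cons b s =>
        cases t' with
        | nil => simp at hlt
        | cons b' s' =>
          have e1 := (List.isChain_cons_cons.mp h).1
          have e2 := (List.isChain_cons_cons.mp h').1
          simp [e1, e2]
    rw [chain_eq n t t' h.tail h'.tail hhead hlt]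

lemma range_chain (n s m : ℕ) (h : s + m ≤ n + 1) :
    (List.range' s m).IsChain (fun a b => b = nx n a) := by
  rw [List.isChain_iff_getElem]
  intro i hi
  rw [List.length_range'] at hi
  simp only [List.getElem_range']
  unfold nx
  rw [if_neg (by omega)]
  omega

lemma rot_chain (n k : ℕ) (hk : k < n) :
    (List.range' (k + 1) (n - k) ++ List.range' 1 k).IsChain (fun a b => b = nx n a) := by
  rw [List.isChain_append]
  refine ⟨range_chain n _ _ (by omega), range_chain n _ _ (by omega), ?_⟩
  intro x hx y hy
  have hx' : x = n := by
    rw [List.getLast?_range'] at hx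
    split_ifs at hx with h0
    · simp at hx
    · simp only [Option.mem_def, Option.some.injEq] at hx
      omega
  have hy' : y = 1 := by
    cases k with
    | zero => simp at hy
    | succ k => simpa [List.range'_succ, eq_comm] using hy
  subst hx'
  subst hy'
  simp [nx]

lemma sort_inc (n : ℕ) (a : List ℕ) (hn : 3 ≤ n) (ha : a.Perm (List.range' 1 n))
    (hc : a.IsChain (fun a b => b = nx n a)) : Reach n 3 a (sortedStack n) := by
  have hlen : a.length = n := by simpa using ha.length_eq
  obtain ⟨x, t, rfl⟩ : ∃ x t, a = x :: t := by
    cases a with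
    | nil => simp at hlen; omega
    | cons x t => exact ⟨x, t, rfl⟩
  have hx : x ∈ List.range' 1 n := ha.mem_iff.mp (by simp)
  rw [List.mem_range'_1] at hx
  obtain ⟨k, rfl⟩ : ∃ k, x = k + 1 := ⟨x - 1, by omega⟩
  have hk : k < n := by omega
  have e : (k + 1) :: t = List.range' (k + 1) (n - k) ++ List.range' 1 k := by
    apply chain_eq n _ _ hc (rot_chain n k hk)
    · obtain ⟨m, hm⟩ : ∃ m, n - k = m + 1 := ⟨n - k - 1, by omega⟩
      rw [hm, List.range'_succ]
      simp
    · rw [hlen, List.length_append, List.length_range', List.length_range']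
      omega
  rw [e]
  set A := List.range' (k + 1) (n - k) with hA
  set B := List.range' 1 k with hB
  have lA : A.length = n - k := by simp [hA]
  have lB : B.length = k := by simp [hB]
  have hBA : B ++ A = sortedStack n := by
    unfold sortedStack
    rw [hA, hB]
    have := List.range'_append (s := 1) (m := k) (n := n - k) (step := 1)
    rw [one_mul, Nat.add_comm 1 k] at this
    rw [this]
    congr 1
    omega
  rcases Nat.eq_zero_or_pos k with h0 | h0
  · refine ⟨[], by simp, by simp, ?_⟩
    rw [List.foldl_nil, ← hBA]
    have : B = [] := by rw [hB, h0]; rfl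
    rw [this]
    simp
  · refine ⟨[n - k, n, k], by simp, ?_, ?_⟩
    · intro j hj
      simp only [List.mem_cons, List.not_mem_nil, or_false] at hj
      omega
    · simp only [List.foldl_cons, List.foldl_nil]
      have e1 : prefixReversal (n - k) (A ++ B) = A.reverse ++ B := by
        unfold prefixReversal
        rw [List.take_append_of_le_length (by omega), List.take_of_length_le (by omega),
          List.drop_append_of_le_length (by omega), List.drop_of_length_le (by omega)]
        rfl
      have e2 : prefixReversal n (A.reverse ++ B) = B.reverse ++ A := by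
        unfold prefixReversal
        rw [List.take_of_length_le (by simp [lA, lB]; omega),
          List.drop_of_length_le (by simp [lA, lB]; omega)]
        simp
      have e3 : prefixReversal k (B.reverse ++ A) = B ++ A := by
        unfold prefixReversal
        rw [List.take_append_of_le_length (by simp [lB]), List.take_of_length_le (by simp [lB]),
          List.drop_append_of_le_length (by simp [lB]), List.drop_of_length_le (by simp [lB])]
        simp
      rw [e1, e2, e3, hBA]

theorem fin (hROOT : T_ROOT) (hOUT : T_OUT) : T_FIN := by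
  intro n a hn ha hcard
  obtain ⟨k, val, R, hR, hw⟩ := hROOT n a hn ha
  obtain ⟨Y, g, rfl⟩ : ∃ Y g, R = [(.tok k 0 0, Y), (.gap, g)] := by
    match R, hR with
    | [(i1, Y), (i2, g)], hR =>
      simp only [List.map_cons, List.map_nil, List.cons.injEq, and_true] at hR
      exact ⟨Y, g, by rw [hR.1, hR.2]⟩
  have hflat : a = Y ++ g := by
    have := hw.flat
    simpa using this.symm
  have hcl : Closed n a Y := hw.closed (.tok k 0 0, Y) (by simp)
  have htok : Tok n val k 0 0 Y := hw.item (.tok k 0 0, Y) (by simp)
  obtain ⟨⟨y1, h11, h12, hy1, he1, _⟩, ⟨y2, h21, h22, hy2, he2, _⟩⟩ :=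
    hOUT n a val k 0 0 [] Y g hn (by simpa using hflat) ha hcl htok
  have hmem : ∀ u, 1 ≤ u → u ≤ n → ¬ Edge n a u → u ∈ missing n (Edge n a) := by
    intro u h1 h2 h3
    simp only [missing, Finset.mem_filter, Finset.mem_Icc]
    exact ⟨⟨h1, h2⟩, h3⟩
  have huniq : ∀ u, 1 ≤ u → u ≤ n → ¬ Edge n a u → u = y2 := by
    intro u h1 h2 h3
    exact Finset.card_le_one.mp hcard u (hmem u h1 h2 h3) y2 (hmem y2 h21 h22 he2)
  have hrange : ∀ u ∈ a, 1 ≤ u ∧ u ≤ n := by
    intro u hu
    have := ha.mem_iff.mp hu
    rw [List.mem_range'_1] at this
    omega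
  have hYa : ∀ u ∈ Y, u ∈ a := by
    intro u hu
    rw [hflat]
    exact List.mem_append_left _ hu
  have hstep : ∀ u, u ∈ Y → nx n u ∈ Y := by
    intro u hu
    by_cases he : Edge n a u
    · exact (hcl u he).mp hu
    · obtain ⟨h1, h2⟩ := hrange u (hYa u hu)
      rw [huniq u h1 h2 he]
      exact hy2
  have hup : ∀ s, s ∈ Y → ∀ d, s + d ≤ n → s + d ∈ Y := by
    intro s hs d
    induction d with
    | zero => intro _; simpa using hs
    | succ d ih =>
      intro hd
      have h1 := hstep _ (ih (by omega))
      unfold nx at h1
      rw [if_neg (by omega)] at h1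
      exact h1
  have hnY : n ∈ Y := by
    have := hup y1 hy1 (n - y1) (by omega)
    rwa [Nat.add_sub_cancel' h12] at this
  have h1Y : 1 ∈ Y := by
    have := hstep n hnY
    simpa [nx] using this
  have hall : ∀ w, 1 ≤ w → w ≤ n → w ∈ Y := by
    intro w h1 h2
    have := hup 1 h1Y (w - 1) (by omega)
    rwa [Nat.add_sub_cancel' h1] at this
  have hnd : a.Nodup := ha.nodup_iff.mpr List.nodup_range'
  have hg : g = [] := by
    by_contra hne
    obtain ⟨w, hw⟩ := List.exists_mem_of_ne_nil g hne
    have hwa : w ∈ a := by rw [hflat]; exact List.mem_append_right _ hw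
    obtain ⟨h1, h2⟩ := hrange w hwa
    rw [hflat, List.nodup_append] at hnd
    exact hnd.2.2 w (hall w h1 h2) w hw rfl
  have haY : a = Y := by rw [hflat, hg, List.append_nil]
  have hlen : a.length = n := by simpa using ha.length_eq
  rw [← haY] at htok
  cases k with
  | s =>
    obtain ⟨v, hv, _⟩ := htok
    rw [hv] at hlen
    simp at hlen
    omega
  | p =>
    obtain ⟨ks, h1, h2, h3⟩ := sort_inc n a hn ha htok.1.1
    exact ⟨ks, by omega, h2, h3⟩
  | m =>
    obtain ⟨ks, h1, h2, h3⟩ := sort_inc n a.reverse hn ((List.reverse_perm a).trans ha) htok.1.1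
    refine ⟨n :: ks, by simp; omega, ?_, ?_⟩
    · intro j hj
      rcases List.mem_cons.mp hj with rfl | hj
      · omega
      · exact h2 j hj
    · rw [List.foldl_cons]
      have e : prefixReversal n a = a.reverse := by
        unfold prefixReversal
        rw [List.take_of_length_le (by omega), List.drop_of_length_le (by omega)]
        simp
      rw [e]
      exact h3

end Pool.Agent.H77.PU.FIN
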