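import Pool.Agent.H63.PU.Targets

/-!
# RED: with two missing edges the potential can be decreased
-/

namespace Pool.Agent.H77.PU.RED

open Pool.Agent.H63.PU Pool.Agent.H53.PK

set_option linter.unusedSimpArgs false

lemma b10 : Nat.beq 1 0 = false := rfl
lemma b11 : Nat.beq 1 1 = true := rfl
lemma b00 : Nat.beq 0 0 = true := rfl
lemma b01 : Nat.beq 0 1 = false := rfl

lemma gain1 (W : Wts) (hW : W.Ok) (h2 : W.B < 2 * W.F) (kX kY : Kd) :
    ∃ ks : List ℕ, ks.length ≤ 10 ∧
      0 < run W ks [.gap, .tok kX 0 1, .gap, .tok kY 1 0, .gap] 0 := by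
  have h1 := hW.FB
  have hF : 0 < W.F := by omega
  have hB : 0 < W.B := by omega
  cases kX <;> cases kY
  · refine ⟨[1, 1], by simp, ?_⟩
    simp [run, flipI, put, join, gain, Item.flip, Kd.flip, H63.PU.notM, H63.PU.notP, b10, b11, b00, b01]; omega
  · refine ⟨[1, 1], by simp, ?_⟩
    simp [run, flipI, put, join, gain, Item.flip, Kd.flip, H63.PU.notM, H63.PU.notP, b10, b11, b00, b01]; omega
  · refine ⟨[3, 1], by simp, ?_⟩
    simp [run, flipI, put, join, gain, Item.flip, Kd.flip, H63.PU.notM, H63.PU.notP, b10, b11, b00, b01]; omega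
  · refine ⟨[1, 1], by simp, ?_⟩
    simp [run, flipI, put, join, gain, Item.flip, Kd.flip, H63.PU.notM, H63.PU.notP, b10, b11, b00, b01]; omega
  · refine ⟨[1, 1], by simp, ?_⟩
    simp [run, flipI, put, join, gain, Item.flip, Kd.flip, H63.PU.notM, H63.PU.notP, b10, b11, b00, b01]; omega
  · refine ⟨[3, 1], by simp, ?_⟩
    simp [run, flipI, put, join, gain, Item.flip, Kd.flip, H63.PU.notM, H63.PU.notP, b10, b11, b00, b01]; omega
  · refine ⟨[1, 0, 1], by simp, ?_⟩
    simp [run, flipI, put, join, gain, Item.flip, Kd.flip, H63.PU.notM, H63.PU.notP, b10, b11, b00, b01]; omega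
  · refine ⟨[1, 0, 1], by simp, ?_⟩
    simp [run, flipI, put, join, gain, Item.flip, Kd.flip, H63.PU.notM, H63.PU.notP, b10, b11, b00, b01]; omega
  · refine ⟨[1, 2, 1], by simp, ?_⟩
    simp [run, flipI, put, join, gain, Item.flip, Kd.flip, H63.PU.notM, H63.PU.notP, b10, b11, b00, b01]; omega

lemma gain2 (W : Wts) (hW : W.Ok) (h2 : W.B < 2 * W.F) (kX kY : Kd) :
    ∃ ks : List ℕ, ks.length ≤ 10 ∧
      0 < run W ks [.gap, .tok kY 1 0, .gap, .tok kX 0 1, .gap] 0 := by
  have h1 := hW.FB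
  have hF : 0 < W.F := by omega
  have hB : 0 < W.B := by omega
  cases kX <;> cases kY
  · refine ⟨[1, 1], by simp, ?_⟩
    simp [run, flipI, put, join, gain, Item.flip, Kd.flip, H63.PU.notM, H63.PU.notP, b10, b11, b00, b01]; omega
  · refine ⟨[1, 0, 1], by simp, ?_⟩
    simp [run, flipI, put, join, gain, Item.flip, Kd.flip, H63.PU.notM, H63.PU.notP, b10, b11, b00, b01]; omega
  · refine ⟨[1, 1], by simp, ?_⟩
    simp [run, flipI, put, join, gain, Item.flip, Kd.flip, H63.PU.notM, H63.PU.notP, b10, b11, b00, b01]; omega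
  · refine ⟨[3, 1], by simp, ?_⟩
    simp [run, flipI, put, join, gain, Item.flip, Kd.flip, H63.PU.notM, H63.PU.notP, b10, b11, b00, b01]; omega
  · refine ⟨[1, 2, 1], by simp, ?_⟩
    simp [run, flipI, put, join, gain, Item.flip, Kd.flip, H63.PU.notM, H63.PU.notP, b10, b11, b00, b01]; omega
  · refine ⟨[3, 1], by simp, ?_⟩
    simp [run, flipI, put, join, gain, Item.flip, Kd.flip, H63.PU.notM, H63.PU.notP, b10, b11, b00, b01]; omega
  · refine ⟨[1, 1], by simp, ?_⟩
    simp [run, flipI, put, join, gain, Item.flip, Kd.flip, H63.PU.notM, H63.PU.notP, b10, b11, b00, b01]; omega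
  · refine ⟨[1, 0, 1], by simp, ?_⟩
    simp [run, flipI, put, join, gain, Item.flip, Kd.flip, H63.PU.notM, H63.PU.notP, b10, b11, b00, b01]; omega
  · refine ⟨[1, 1], by simp, ?_⟩
    simp [run, flipI, put, join, gain, Item.flip, Kd.flip, H63.PU.notM, H63.PU.notP, b10, b11, b00, b01]; omega

lemma up_edge (n : ℕ) : ∀ (l : List ℕ) (u : ℕ), l.IsChain (fun a b => b = nx n a) → u ∈ l →
    l.getLast? = some u ∨ Edge n l u
  | [], u, _, hu => by simp at hu
  | [x], u, _, hu => by
    left
    simp only [List.mem_singleton] at hu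
    simp [hu]
  | x :: y :: s, u, h, hu => by
    rcases List.mem_cons.mp hu with rfl | hu
    · right
      left
      have := (List.isChain_cons_cons.mp h).1
      subst this
      exact ⟨[], s, by simp⟩
    · rcases up_edge n (y :: s) u h.tail hu with h1 | h1
      · left
        rw [List.getLast?_cons_cons]
        exact h1
      · right
        rcases h1 with h1 | h1
        · exact Or.inl (h1.trans (List.suffix_cons x _).isInfix)
        · exact Or.inr (h1.trans (List.suffix_cons x _).isInfix)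

lemma tok_last (hEDGE : T_EDGE) (n : ℕ) (val : ℕ → ℕ) (k : Kd) (lo hi : ℕ) (Y : List ℕ)
    (h : Tok n val k lo hi Y) (u w : ℕ) (hu : u ∈ Y) (hw : w ∈ Y) (heu : ¬ Edge n Y u)
    (hew : ¬ Edge n Y w) : u = w := by
  cases k with
  | s =>
    obtain ⟨v, rfl, _⟩ := h
    simp only [List.mem_singleton] at hu hw
    rw [hu, hw]
  | p =>
    have h1 := (up_edge n Y u h.1.1 hu).resolve_right heu
    have h2 := (up_edge n Y w h.1.1 hw).resolve_right hew
    rw [h1] at h2
    exact Option.some.inj h2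
  | m =>
    have h1 := (up_edge n Y.reverse u h.1.1 (List.mem_reverse.mpr hu)).resolve_right
      (by rw [hEDGE.2.1]; exact heu)
    have h2 := (up_edge n Y.reverse w h.1.1 (List.mem_reverse.mpr hw)).resolve_right
      (by rw [hEDGE.2.1]; exact hew)
    rw [h1] at h2
    exact Option.some.inj h2

lemma edge_mono {n : ℕ} {l a : List ℕ} (h : l <:+: a) {u : ℕ} (he : Edge n l u) : Edge n a u := by
  rcases he with he | he
  · exact Or.inl (he.trans h)
  · exact Or.inr (he.trans h)

theorem red (hEXT : T_EXT) (hEND : T_END) (hEDGE : T_EDGE) (hRUN : T_RUN) (hINIT : T_INIT)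
    (hPHIM : T_PHIM) : T_RED := by
  intro W n a hW hBF hn ha hcard
  have hrange : ∀ u, u ∈ a ↔ 1 ≤ u ∧ u ≤ n := by
    intro u
    rw [ha.mem_iff, List.mem_range'_1]
    omega
  -- the final step
  have key : ∀ (R : List (Item × List ℕ)) (v : ℕ), 1 ≤ v → v ≤ n →
      (R.map Prod.snd).flatten = a → (∀ x ∈ R, Closed n a x.2) →
      (∀ x ∈ R, ItemR n (fun _ => v) x.1 x.2) →
      (∃ ks : List ℕ, ks.length ≤ 10 ∧ 0 < run W ks (R.map Prod.fst) 0) →
      ∃ b, Reach n 10 a b ∧ phi W n (Edge n b) < phi W n (Edge n a) := by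
    rintro R v hv1 hv2 hflat hcl hit ⟨ks, hks, hg⟩
    have hw : RealW n a (fun _ => v) R := ⟨fun _ => ⟨hv1, hv2⟩, hflat, hcl, hit⟩
    obtain ⟨b, ⟨ks', h1, h2, h3⟩, hb⟩ := hRUN W n (fun _ => v) ks R hW hn (fun _ => ⟨hv1, hv2⟩)
      (by rw [hflat]; exact ha) hit
    rw [hflat] at h3
    refine ⟨b, ⟨ks', by omega, h2, h3⟩, ?_⟩
    have h4 := hPHIM W n (Edge n a) (EdgeR n R) hW (hINIT n a _ R ha hw)
    have h5 : (0 : ℤ) < (run W ks (R.map Prod.fst) 0 : ℤ) := by exact_mod_cast hg
    linarith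
  -- a missing edge
  obtain ⟨v, hv⟩ : (missing n (Edge n a)).Nonempty := Finset.card_pos.mp (by omega)
  simp only [missing, Finset.mem_filter, Finset.mem_Icc] at hv
  obtain ⟨⟨hv1, hv2⟩, hve⟩ := hv
  have hva : v ∈ a := (hrange v).mpr ⟨hv1, hv2⟩
  have hcla : Closed n a a := by
    intro u he
    have := hEDGE.2.2 n u a he
    exact ⟨fun _ => this.2, fun _ => this.1⟩
  obtain ⟨g₁, Y, g₂, k, hag, hvY, htok, hc1, hcY, hc2⟩ := hEXT n [] a [] v hn
    (by simpa using ha) (by simpa using hcla) hva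
  simp only [List.nil_append, List.append_nil] at hc1 hcY hc2
  have hYa : Y <:+: a := ⟨g₁, g₂, hag.symm⟩
  have hnv : nx n v ∉ Y := by
    intro hin
    have hstep : ∀ u, u ∈ Y → nx n u ∈ Y := by
      intro u hu
      by_cases he : Edge n a u
      · exact (hcY u he).mp hu
      · have := tok_last hEDGE n (fun _ => v) k 0 0 Y (htok _) u v hu hvY
          (fun h => he (edge_mono hYa h)) (fun h => hve (edge_mono hYa h))
        rw [this]
        exact hin
    have hup : ∀ s, s ∈ Y → ∀ d, s + d ≤ n → s + d ∈ Y := by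
      intro s hs d
      induction d with
      | zero => intro _; simpa using hs
      | succ d ih =>
        intro hd
        have h1 := hstep _ (ih (by omega))
        unfold nx at h1
        rw [if_neg (by omega)] at h1
        exact h1
    have hnY : n ∈ Y := by
      have := hup v hvY (n - v) (by omega)
      rwa [Nat.add_sub_cancel' hv2] at this
    have h1Y : 1 ∈ Y := by
      have := hstep n hnY
      simpa [nx] using this
    have hall : ∀ w, 1 ≤ w → w ≤ n → w ∈ Y := by
      intro w h1 h2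
      have := hup 1 h1Y (w - 1) (by omega)
      rwa [Nat.add_sub_cancel' h1] at this
    have hle : (missing n (Edge n a)).card ≤ 1 := by
      rw [Finset.card_le_one]
      intro x hx y hy
      simp only [missing, Finset.mem_filter, Finset.mem_Icc] at hx hy
      exact tok_last hEDGE n (fun _ => v) k 0 0 Y (htok _) x y (hall x hx.1.1 hx.1.2)
        (hall y hy.1.1 hy.1.2) (fun h => hx.2 (edge_mono hYa h))
        (fun h => hy.2 (edge_mono hYa h))
    omega
  have hY : Tok n (fun _ => v) k 0 1 Y :=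
    (hEND n a (fun _ => v) k 0 0 g₁ Y g₂ v hn hag ha hv1 hv2 hve (htok _) (fun _ => v) 1 rfl
      (by simp) (by simp)).2 hvY
  have hnva : nx n v ∈ a := by
    rw [hrange]
    unfold nx
    split_ifs <;> omega
  rw [hag, List.mem_append, List.mem_append] at hnva
  rcases hnva with (hin | hin) | hin
  · -- above
    obtain ⟨p₁, Z, p₂, kZ, hpg, hnvZ, htokZ, hd1, hdZ, hd2⟩ := hEXT n [] g₁ (Y ++ g₂) (nx n v) hn
      (by rw [List.nil_append, ← List.append_assoc, ← hag]; exact ha)
      (by rw [List.nil_append, ← List.append_assoc, ← hag]; exact hc1) hin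
    rw [List.nil_append, ← List.append_assoc, ← hag] at hd1 hdZ hd2
    have haZ : a = p₁ ++ Z ++ (p₂ ++ Y ++ g₂) := by rw [hag, hpg]; simp
    have hZ : Tok n (fun _ => v) kZ 1 0 Z :=
      (hEND n a (fun _ => v) kZ 0 0 p₁ Z _ v hn haZ ha hv1 hv2 hve (htokZ _) (fun _ => v) 1 rfl
        (by simp) (by simp)).1 hnvZ
    refine key [(.gap, p₁), (.tok kZ 1 0, Z), (.gap, p₂), (.tok k 0 1, Y), (.gap, g₂)] v hv1 hv2
      ?_ ?_ ?_ (gain2 W hW hBF k kZ)
    · simp [haZ]
    · intro x hx
      simp only [List.mem_cons, List.not_mem_nil, or_false] at hx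
      rcases hx with rfl | rfl | rfl | rfl | rfl
      exacts [hd1, hdZ, hd2, hcY, hc2]
    · intro x hx
      simp only [List.mem_cons, List.not_mem_nil, or_false] at hx
      rcases hx with rfl | rfl | rfl | rfl | rfl
      exacts [trivial, hZ, trivial, hY, trivial]
  · exact absurd hin hnv
  · -- below
    obtain ⟨p₁, Z, p₂, kZ, hpg, hnvZ, htokZ, hd1, hdZ, hd2⟩ := hEXT n (g₁ ++ Y) g₂ [] (nx n v) hn
      (by rw [List.append_nil, ← hag]; exact ha)
      (by rw [List.append_nil, ← hag]; exact hc2) hin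
    rw [List.append_nil, ← hag] at hd1 hdZ hd2
    have haZ : a = (g₁ ++ Y ++ p₁) ++ Z ++ p₂ := by rw [hag, hpg]; simp
    have hZ : Tok n (fun _ => v) kZ 1 0 Z :=
      (hEND n a (fun _ => v) kZ 0 0 _ Z p₂ v hn haZ ha hv1 hv2 hve (htokZ _) (fun _ => v) 1 rfl
        (by simp) (by simp)).1 hnvZ
    refine key [(.gap, g₁), (.tok k 0 1, Y), (.gap, p₁), (.tok kZ 1 0, Z), (.gap, p₂)] v hv1 hv2
      ?_ ?_ ?_ (gain1 W hW hBF k kZ)
    · simp [haZ]
    · intro x hx
      simp only [List.mem_cons, List.not_mem_nil, or_false] at hx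
      rcases hx with rfl | rfl | rfl | rfl | rfl
      exacts [hc1, hcY, hd1, hdZ, hd2]
    · intro x hx
      simp only [List.mem_cons, List.not_mem_nil, or_false] at hx
      rcases hx with rfl | rfl | rfl | rfl | rfl
      exacts [trivial, hY, trivial, hZ, trivial]

end Pool.Agent.H77.PU.RED
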